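import Pool.Agent.H87.SH.Targets

/-! Row ALG of the board hlf (MP_2697e3_an): the last step. -/

namespace Pool.Agent.H79.SH

open Pool.Agent.H87.SN Pool.Agent.H87.SH
open MeasureTheory Metric Set Filter Topology
open scoped ContDiff RealInnerProductSpace ENNReal

theorem cs {X : Type*} [MeasurableSpace X] (μ : Measure X) (f g : X → ℝ) (hf : Measurable f)
    (hg : Measurable g) (f0 : ∀ x, 0 ≤ f x) (A B : ℝ)
    (h1 : ∫⁻ x, ENNReal.ofReal (f x ^ 2) ∂μ ≤ ENNReal.ofReal A)
    (h2 : ∫⁻ x, ENNReal.ofReal (g x ^ 2) ∂μ ≤ ENNReal.ofReal B) :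
    ∫⁻ x, ENNReal.ofReal (f x * g x) ∂μ ≤ ENNReal.ofReal (Real.sqrt A * Real.sqrt B) := by
  have key := ENNReal.lintegral_mul_le_Lp_mul_Lq μ (p := 2) (q := 2)
    Real.HolderConjugate.two_two (f := fun x => ENNReal.ofReal (f x))
    (g := fun x => ENNReal.ofReal (|g x|)) hf.ennreal_ofReal.aemeasurable
    (hg.abs).ennreal_ofReal.aemeasurable
  have e1 : ∫⁻ x, ENNReal.ofReal (f x) ^ (2 : ℝ) ∂μ = ∫⁻ x, ENNReal.ofReal (f x ^ 2) ∂μ := by
    refine lintegral_congr fun x => ?_
    rw [ENNReal.ofReal_rpow_of_nonneg (f0 x) (by norm_num), Real.rpow_two]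
  have e2 : ∫⁻ x, ENNReal.ofReal |g x| ^ (2 : ℝ) ∂μ = ∫⁻ x, ENNReal.ofReal (g x ^ 2) ∂μ := by
    refine lintegral_congr fun x => ?_
    rw [ENNReal.ofReal_rpow_of_nonneg (abs_nonneg _) (by norm_num), Real.rpow_two, sq_abs]
  have e3 : ∀ Y : ℝ, ENNReal.ofReal Y ^ (1 / (2 : ℝ)) = ENNReal.ofReal (Real.sqrt Y) := by
    intro Y
    rcases le_total 0 Y with hY | hY
    · rw [ENNReal.ofReal_rpow_of_nonneg hY (by norm_num), Real.sqrt_eq_rpow]
    · rw [ENNReal.ofReal_of_nonpos hY, Real.sqrt_eq_zero_of_nonpos hY, ENNReal.ofReal_zero,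
        ENNReal.zero_rpow_of_pos (by norm_num)]
  simp only [Pi.mul_apply] at key
  rw [e1, e2] at key
  calc ∫⁻ x, ENNReal.ofReal (f x * g x) ∂μ
      ≤ ∫⁻ x, ENNReal.ofReal (f x) * ENNReal.ofReal |g x| ∂μ := by
        refine lintegral_mono fun x => ?_
        rw [← ENNReal.ofReal_mul (f0 x)]
        exact ENNReal.ofReal_le_ofReal (mul_le_mul_of_nonneg_left (le_abs_self _) (f0 x))
    _ ≤ _ := key
    _ ≤ ENNReal.ofReal A ^ (1 / (2 : ℝ)) * ENNReal.ofReal B ^ (1 / (2 : ℝ)) := by
        gcongr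
    _ = _ := by
        rw [e3, e3, ← ENNReal.ofReal_mul (Real.sqrt_nonneg _)]

theorem core {X : Type*} [MeasurableSpace X] (μ : Measure X) (R h : X → ℝ) (hR : Measurable R)
    (hh : Measurable h) (R0 : ∀ x, 0 < R x) (R1 : ∀ x, R x ≤ 1 / 8) (h0 : ∀ x, 0 ≤ h x)
    (g : ℝ → ℝ) (hg : AntitoneOn g (Ici 0)) (g01 : ∀ s, 0 ≤ g s ∧ g s ≤ 1) (V A B D : ℝ)
    (hV : μ univ ≤ ENNReal.ofReal V)
    (hA : ∫⁻ x, ENNReal.ofReal (R x ^ 2 * h x ^ 2) ∂μ ≤ ENNReal.ofReal A)
    (hB : ∫⁻ x in {x | R x < 1 / 8}, ENNReal.ofReal (g (max 0 (1 / R x)) ^ 2 / R x ^ 2) ∂μ ≤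
      ENNReal.ofReal B)
    (hD : ∫⁻ x in {x | R x < 1 / 8}, ENNReal.ofReal (1 / R x) ∂μ ≤ ENNReal.ofReal D)
    (D0 : 0 ≤ D) :
    ∫⁻ x, ENNReal.ofReal (h x * g (h x)) ∂μ ≤
      ENNReal.ofReal (Real.sqrt A * Real.sqrt (64 * V) + (Real.sqrt A * Real.sqrt B + D)) := by
  have hgm : Measurable (fun s : ℝ => g (max 0 s)) := by
    apply Antitone.measurable
    intro s t hst
    exact hg (le_max_left 0 s) (le_max_left 0 t) (max_le_max le_rfl hst)
  have hS : MeasurableSet {x | R x < 1 / 8} := measurableSet_lt hR measurable_const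
  rw [← lintegral_add_compl _ hS, add_comm]
  rw [ENNReal.ofReal_add (by positivity) (by positivity)]
  refine add_le_add ?_ ?_
  · -- the part with R = 1/8
    have hle : ∫⁻ x in {x | R x < 1 / 8}ᶜ, ENNReal.ofReal (h x * g (h x)) ∂μ ≤
        ∫⁻ x, ENNReal.ofReal ((R x * h x) * 8) ∂(μ.restrict {x | R x < 1 / 8}ᶜ) := by
      refine setLIntegral_mono' hS.compl ?_
      intro x hx
      have hx8 : R x = 1 / 8 := le_antisymm (R1 x) (not_lt.1 hx)
      apply ENNReal.ofReal_le_ofReal
      rw [hx8]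
      have := mul_le_mul_of_nonneg_left (g01 (h x)).2 (h0 x)
      linarith
    refine hle.trans ?_
    refine cs _ (fun x => R x * h x) (fun _ => 8) (hR.mul hh) measurable_const
      (fun x => mul_nonneg (R0 x).le (h0 x)) A (64 * V) ?_ ?_
    · refine le_trans ?_ hA
      refine le_trans (lintegral_mono' Measure.restrict_le_self le_rfl) ?_
      refine lintegral_mono fun x => ?_
      rw [mul_pow]
    · rw [lintegral_const, Measure.restrict_apply_univ]
      have h64 : ENNReal.ofReal ((8 : ℝ) ^ 2) = ENNReal.ofReal 64 := by norm_num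
      rw [h64, ENNReal.ofReal_mul (by norm_num : (0 : ℝ) ≤ 64)]
      exact mul_le_mul_right ((measure_mono (subset_univ _)).trans hV) _
  · rw [ENNReal.ofReal_add (by positivity) D0]
    have hle : ∫⁻ x in {x | R x < 1 / 8}, ENNReal.ofReal (h x * g (h x)) ∂μ ≤
        ∫⁻ x in {x | R x < 1 / 8}, (ENNReal.ofReal ((R x * h x) * (g (max 0 (1 / R x)) / R x)) +
          ENNReal.ofReal (1 / R x)) ∂μ := by
      refine setLIntegral_mono' hS ?_
      intro x hx
      have hRx := R0 x
      have hpos : 0 < 1 / R x := by positivity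
      rw [← ENNReal.ofReal_add
        (mul_nonneg (mul_nonneg hRx.le (h0 x)) (div_nonneg (g01 _).1 hRx.le)) hpos.le]
      apply ENNReal.ofReal_le_ofReal
      rw [max_eq_right hpos.le]
      have e1 : (R x * h x) * (g (1 / R x) / R x) = h x * g (1 / R x) := by
        field_simp
      rw [e1]
      rcases le_total (1 / R x) (h x) with hc | hc
      · have h1 : g (h x) ≤ g (1 / R x) := hg hpos.le (h0 x) hc
        have h2 := mul_le_mul_of_nonneg_left h1 (h0 x)
        linarith
      · have h1 := mul_le_mul_of_nonneg_left (g01 (h x)).2 (h0 x)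
        have h2 := mul_nonneg (h0 x) (g01 (1 / R x)).1
        linarith
    refine hle.trans ?_
    rw [lintegral_add_right _ (by fun_prop)]
    refine add_le_add ?_ hD
    refine cs _ (fun x => R x * h x) (fun x => g (max 0 (1 / R x)) / R x) (hR.mul hh) ?_
      (fun x => mul_nonneg (R0 x).le (h0 x)) A B ?_ ?_
    · exact (hgm.comp (measurable_const.div hR)).div hR
    · refine le_trans ?_ hA
      refine le_trans (lintegral_mono' Measure.restrict_le_self le_rfl) ?_
      refine lintegral_mono fun x => ?_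
      rw [mul_pow]
    · refine le_trans (lintegral_mono fun x => ?_) hB
      rw [div_pow]

theorem pf_ALG (hDYA : T_DYA) : T_ALG := by
  obtain ⟨C', hC', hdya⟩ := hDYA
  intro n C hC
  obtain ⟨V, hV⟩ : ∃ V : ℝ, volume (ball (0 : E n) 1) = ENNReal.ofReal V :=
    ⟨(volume (ball (0 : E n) 1)).toReal, (ENNReal.ofReal_toReal measure_ball_lt_top.ne).symm⟩
  refine ⟨Real.sqrt C * Real.sqrt (64 * V) + (C * Real.sqrt C' + C' * C), by positivity, ?_⟩
  intro R h a I g ha hI hR hh h0 R1 R0 hA hvol hg g01 hint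
  classical
  -- the modified scale
  set R' : E n → ℝ := fun x => if x ∈ ball (0 : E n) 1 then R x else 1 / 8 with hR'
  have hRe : ∀ x ∈ ball (0 : E n) 1, R' x = R x := fun x hx => by simp only [hR']; rw [if_pos hx]
  have hR'm : Measurable R' := Measurable.ite measurableSet_ball hR measurable_const
  have R'0 : ∀ x, 0 < R' x := by
    intro x
    by_cases hx : x ∈ ball (0 : E n) 1
    · rw [hRe x hx]; exact R0 x hx
    · simp only [hR']; rw [if_neg hx]; norm_num
  have R'1 : ∀ x, R' x ≤ 1 / 8 := by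
    intro x
    by_cases hx : x ∈ ball (0 : E n) 1
    · rw [hRe x hx]; exact R1 x
    · simp only [hR']; rw [if_neg hx]
  have hd := hdya (E n) inferInstance (volume.restrict (ball (0 : E n) 1)) R' (C * a) I
    (fun s => g (max 0 s) ^ 2) (mul_nonneg hC ha) hI hR'm R'0 ?_ ?_ ?_ ?_
  · have hfin := core (volume.restrict (ball (0 : E n) 1)) R' h hR'm hh R'0 R'1 h0 g hg g01 V
      (C * a) (C' * (C * a) * I) (C' * (C * a)) (by rw [Measure.restrict_apply_univ, hV]) ?_
      hd.1 hd.2 (mul_nonneg hC' (mul_nonneg hC ha))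
    · refine hfin.trans (ENNReal.ofReal_le_ofReal ?_)
      have e1 : Real.sqrt (C * a) = Real.sqrt C * Real.sqrt a := Real.sqrt_mul hC a
      have e2 : Real.sqrt (C' * (C * a) * I) =
          Real.sqrt C' * (Real.sqrt C * Real.sqrt a) * Real.sqrt I := by
        rw [Real.sqrt_mul (mul_nonneg hC' (mul_nonneg hC ha)), Real.sqrt_mul hC', e1]
      have e3 : Real.sqrt C * Real.sqrt a * (Real.sqrt C' * (Real.sqrt C * Real.sqrt a) * Real.sqrt I)
          = C * Real.sqrt C' * (a * Real.sqrt I) := by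
        have s1 : Real.sqrt C * Real.sqrt C = C := Real.mul_self_sqrt hC
        have s2 : Real.sqrt a * Real.sqrt a = a := Real.mul_self_sqrt ha
        calc _ = (Real.sqrt C * Real.sqrt C) * Real.sqrt C' *
              ((Real.sqrt a * Real.sqrt a) * Real.sqrt I) := by ring
          _ = _ := by rw [s1, s2]
      rw [e1, e2, e3]
      have i1 : Real.sqrt I ≤ Real.sqrt (1 + I) := Real.sqrt_le_sqrt (by linarith)
      have i2 : 1 ≤ Real.sqrt (1 + I) := by
        rw [Real.one_le_sqrt]; linarith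
      have j1 : C * Real.sqrt C' * (a * Real.sqrt I) ≤
          C * Real.sqrt C' * (a * Real.sqrt (1 + I)) := by gcongr
      have j2 : C' * (C * a) ≤ C' * C * (a * Real.sqrt (1 + I)) := by
        have : a ≤ a * Real.sqrt (1 + I) := by
          nlinarith
        calc C' * (C * a) = C' * C * a := by ring
          _ ≤ _ := by gcongr
      have j3 : 0 ≤ (C * Real.sqrt C' + C' * C) * Real.sqrt a := by positivity
      have j4 : 0 ≤ Real.sqrt C * Real.sqrt (64 * V) * (a * Real.sqrt (1 + I)) := by positivity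
      nlinarith [j1, j2, j3, j4]
    · refine le_trans (le_of_eq ?_) hA
      refine setLIntegral_congr_fun measurableSet_ball ?_
      intro x hx
      simp only
      rw [hRe x hx]
  · intro ρ hρ hρ8
    refine le_trans ?_ (hvol ρ hρ hρ8)
    rw [Measure.restrict_apply (measurableSet_lt hR'm measurable_const)]
    refine measure_mono ?_
    rintro x ⟨hx1, hx2⟩
    refine ⟨hx2, ?_⟩
    rw [← hRe x hx2]
    exact hx1
  · intro s hs t ht hst
    simp only
    have := hg (le_max_left 0 s) (le_max_left 0 t) (max_le_max le_rfl hst)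
    exact pow_le_pow_left₀ (g01 _).1 this 2
  · intro s
    exact ⟨sq_nonneg _, pow_le_one₀ (g01 _).1 (g01 _).2⟩
  · refine le_trans (le_of_eq ?_) hint
    refine setLIntegral_congr_fun measurableSet_Ioi ?_
    intro s hs
    simp only
    rw [max_eq_right (zero_le_one.trans (le_of_lt hs))]

end Pool.Agent.H79.SH
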